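import Pool.Agent.BKW.Stmts

set_option autoImplicit false

/-! # Squad BKW, row STP (helper98): one extrapolation step -/

open Real

open scoped BigOperators

namespace Pool.Agent.BKW.H98

theorem exp_two_le : exp 2 ≤ (8 : ℝ) := by
  have h := Real.exp_one_lt_d9
  have h0 := Real.exp_pos 1
  have e : exp (2 : ℝ) = exp 1 * exp 1 := by
    rw [← exp_add]; norm_num
  rw [e]
  nlinarith

theorem exp_neg_two_le : exp (-2 : ℝ) ≤ 1 / 3 := by
  rw [exp_neg, ← one_div]
  apply one_div_le_one_div_of_le (by norm_num)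
  have := add_one_le_exp (2 : ℝ)
  linarith

theorem exp_neg_three_le : exp (-3 : ℝ) ≤ 1 / 4 := by
  rw [exp_neg, ← one_div]
  apply one_div_le_one_div_of_le (by norm_num)
  have := add_one_le_exp (3 : ℝ)
  linarith

theorem fst_bound (C W X : ℝ) (n : ℕ) (hW : 0 ≤ W) (hX : 0 ≤ X) (h1 : 8 * W * X ≤ n)
    (h2 : C + 2 ≤ (n : ℝ) / 2) :
    exp C * (W * X) ^ n * exp (W * X) / (n.factorial : ℝ) ≤ exp (-2) := by
  have hx : 0 ≤ 8 * (W * X) := by positivity
  have h3 := Real.pow_div_factorial_le_exp (8 * (W * X)) hx n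
  have hf : (0 : ℝ) < (n.factorial : ℝ) := by exact_mod_cast n.factorial_pos
  have h8 : (0 : ℝ) < 8 ^ n := by positivity
  have h5 : (W * X) ^ n / (n.factorial : ℝ) ≤ exp (-(n : ℝ)) := by
    have h4 : (W * X) ^ n / (n.factorial : ℝ) =
        ((8 * (W * X)) ^ n / (n.factorial : ℝ)) / 8 ^ n := by
      rw [mul_pow (8 : ℝ) (W * X) n]
      field_simp
    rw [h4, div_le_iff₀ h8]
    refine h3.trans ?_
    calc exp (8 * (W * X)) ≤ exp (n : ℝ) := exp_le_exp.2 (by linarith)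
      _ = exp (-(n : ℝ)) * exp ((n : ℝ) * 2) := by rw [← exp_add]; congr 1; ring
      _ ≤ exp (-(n : ℝ)) * 8 ^ n := by
          apply mul_le_mul_of_nonneg_left _ (exp_pos _).le
          rw [exp_nat_mul]
          exact pow_le_pow_left₀ (exp_pos _).le exp_two_le _
  calc exp C * (W * X) ^ n * exp (W * X) / (n.factorial : ℝ)
      = exp C * ((W * X) ^ n / (n.factorial : ℝ)) * exp (W * X) := by ring
    _ ≤ exp C * exp (-(n : ℝ)) * exp ((n : ℝ) / 8) := by
        apply mul_le_mul _ (exp_le_exp.2 (by linarith)) (exp_pos _).le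
          (by positivity)
        exact mul_le_mul_of_nonneg_left h5 (exp_pos _).le
    _ = exp (C + -(n : ℝ) + (n : ℝ) / 8) := by rw [exp_add, exp_add]
    _ ≤ exp (-2) := by
        apply exp_le_exp.2
        have : (0 : ℝ) ≤ n := Nat.cast_nonneg _
        linarith

theorem pow_eq_exp {A : ℝ} (hA : 0 < A) (n : ℕ) : A ^ n = exp (n * log A) := by
  rw [exp_nat_mul, exp_log hA]

theorem stp (hALE : Pool.Agent.DIO.AleStatement) (hS : SizStmt) (hD : DrvStmt)
    (hC : CloStmt) : StpStmt := by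
  intro N L h h' T R R' B a a0 b b0 l H0 lam p hdat hL hT hR hRR' hhT hp hLam hineq hZ
  obtain ⟨q1, q2, q3⟩ := hineq
  obtain ⟨s1, s2⟩ := hS N L B a a0 b b0 l hdat hL
  by_cases hp0 : ∀ u, p u = 0
  · intro μ _ s _ _
    unfold FF
    simp [hp0]
  push Not at hp0
  obtain ⟨u0, hu0⟩ := hp0
  -- basic positivity
  have hl1 : 1 ≤ l := hdat.l1
  have hB1 : (1 : ℝ) ≤ B := by exact_mod_cast hdat.B1
  have hL1 : (1 : ℝ) ≤ L := by exact_mod_cast hL
  have hT1 : (1 : ℝ) ≤ T := by exact_mod_cast hT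
  have hR1 : (1 : ℝ) ≤ R := by exact_mod_cast hR
  have hRR : (R : ℝ) ≤ R' := by exact_mod_cast hRR'
  have hR'1 : (1 : ℝ) ≤ R' := hR1.trans hRR
  have hN0 : (0 : ℝ) ≤ N := Nat.cast_nonneg _
  have hh0 : (0 : ℝ) ≤ h := Nat.cast_nonneg _
  have hRT1 : (1 : ℝ) ≤ (R : ℝ) * T := by nlinarith
  have hH0 : 0 ≤ H0 := by
    have e1 : (1 : ℝ) ≤ |(p u0 : ℝ)| := by
      have := Int.one_le_abs hu0
      exact_mod_cast this
    exact exp_le_exp.1 (by rw [exp_zero]; exact e1.trans (hp u0)) |> fun h => h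
  have hlogL : 0 ≤ log (L : ℝ) := log_nonneg hL1
  have hBL : (1 : ℝ) ≤ 2 * B * L := by nlinarith
  have hC0 : 0 ≤ logC N L h B H0 := by
    unfold logC
    have e1 : 0 ≤ log (2 * (B : ℝ) * L) := log_nonneg hBL
    positivity
  set C : ℝ := logC N L h B H0 with hCdef
  -- abbreviations
  have hA1 : (1 : ℝ) ≤ N * l + 1 := by nlinarith
  have hA : 0 ≤ (T : ℝ) * log (N * l + 1) := mul_nonneg (by linarith) (log_nonneg hA1)
  have hY1 : (1 : ℝ) ≤ 2 * ((R : ℝ) * T) * R' := by nlinarith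
  have hY : 0 ≤ (((R : ℝ) * T) ^ 2 + 2 * (R * T)) * log (2 * (R * T) * R') :=
    mul_nonneg (by positivity) (log_nonneg hY1)
  have hZ1 : (1 : ℝ) ≤ 2 * (R' : ℝ) * L := by nlinarith
  have hZ0 : 0 ≤ log (2 * (R' : ℝ) * L) := log_nonneg hZ1
  have hG0 : 0 ≤ ((N : ℝ) + 1) * L * l * R' := by positivity
  set G : ℝ := ((N : ℝ) + 1) * L * l * R' with hGdef
  set Lm : ℝ := |Lam a a0 b b0| with hLm
  have hLm0 : 0 ≤ Lm := abs_nonneg _
  set E1 : ℝ := exp (C + G) * (2 * R' * L * Lm) with hE1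
  have hE10 : 0 ≤ E1 := by positivity
  have hE1le : E1 ≤ exp (C + G + log (2 * R' * L) - lam) := by
    rw [sub_eq_add_neg, exp_add, exp_add _ (log _), exp_log (by linarith), hE1]
    have : 2 * (R' : ℝ) * L * Lm ≤ 2 * R' * L * exp (-lam) :=
      mul_le_mul_of_nonneg_left hLam (by linarith)
    calc exp (C + G) * (2 * R' * L * Lm) ≤ exp (C + G) * (2 * R' * L * exp (-lam)) :=
          mul_le_mul_of_nonneg_left this (exp_pos _).le
      _ = exp (C + G) * (2 * R' * L) * exp (-lam) := by ring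
  have hsmall : (R' : ℝ) * L * Lm ≤ 1 := by
    have e1 : 2 * (R' : ℝ) * L * Lm ≤ 2 * R' * L * exp (-lam) :=
      mul_le_mul_of_nonneg_left hLam (by linarith)
    have e2 : 2 * (R' : ℝ) * L * exp (-lam) ≤ 1 := by
      calc 2 * (R' : ℝ) * L * exp (-lam) = exp (log (2 * R' * L) + -lam) := by
            rw [exp_add, exp_log (by linarith)]
        _ ≤ exp 0 := exp_le_exp.2 (by linarith)
        _ = 1 := exp_zero
    have e3 : 0 ≤ (R' : ℝ) * L * Lm := by positivity
    linarith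
  -- closeness
  have hclo : ∀ (μ : Fin N → ℕ) (s : ℕ), ∑ j, μ j ≤ h → s ≤ R' →
      |ff a b b0 p μ 0 s - ((FF a a0 b b0 p μ s : ℤ) : ℝ)| ≤ E1 := by
    intro μ s hμ hs
    have hs' : (s : ℝ) ≤ R' := by exact_mod_cast hs
    have hs0 : (0 : ℝ) ≤ s := Nat.cast_nonneg _
    have e1 : (s : ℝ) * L * |Lam a a0 b b0| ≤ 1 := by
      refine le_trans ?_ hsmall
      gcongr
    refine (hC N L B a a0 b b0 l hdat hL p H0 h μ s hp hμ e1).trans ?_
    rw [hE1, hGdef]
    gcongr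
  intro μ hμ s hs1 hsR'
  have hs0 : (0 : ℝ) ≤ s := Nat.cast_nonneg _
  have hsR'' : (s : ℝ) ≤ R' := by exact_mod_cast hsR'
  -- the analytic lemma
  set η : ℝ := (N * l + 1) ^ T * E1 with hη
  have hη0 : 0 ≤ η := by positivity
  have hW0 : 0 ≤ 2 * (N : ℝ) * L * l := by positivity
  have hμh : ∑ j, μ j ≤ h := by omega
  have key := hALE (Ix N L) (fun u => (p u : ℝ) * ((∏ j, cc b b0 u j ^ μ j : ℤ) : ℝ))
    (fun u => th a b b0 u) (exp C) (2 * N * L * l) η R T hR hT hW0 hη0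
    (s1 p H0 h μ hp hμh) (fun u => (s2 u).1) ?_ R' s hRR hs0 hsR''
  · have hRTc : ((R * T : ℕ) : ℝ) = (R : ℝ) * T := by push_cast; ring
    have t1 : exp C * (2 * (N : ℝ) * L * l * R') ^ (R * T) * exp (2 * (N : ℝ) * L * l * R') /
        ((R * T).factorial : ℝ) ≤ exp (-2) := by
      apply fst_bound C (2 * N * L * l) R' (R * T) hW0 (by linarith)
      · rw [hRTc]; exact q1
      · rw [hRTc]; exact q2
    have t2 : η * (2 * ((R * T : ℕ) : ℝ) * R') ^ ((R * T) ^ 2 + 2 * (R * T)) ≤ exp (-3) := by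
      have e1 : (2 * ((R * T : ℕ) : ℝ) * R') ^ ((R * T) ^ 2 + 2 * (R * T)) =
          exp ((((R : ℝ) * T) ^ 2 + 2 * (R * T)) * log (2 * (R * T) * R')) := by
        rw [hRTc, pow_eq_exp (by linarith)]
        push_cast
        ring_nf
      rw [e1, hη, pow_eq_exp (by linarith : (0 : ℝ) < N * l + 1)]
      calc exp ((T : ℝ) * log (N * l + 1)) * E1 *
            exp ((((R : ℝ) * T) ^ 2 + 2 * (R * T)) * log (2 * (R * T) * R'))
          ≤ exp ((T : ℝ) * log (N * l + 1)) * exp (C + G + log (2 * R' * L) - lam) *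
            exp ((((R : ℝ) * T) ^ 2 + 2 * (R * T)) * log (2 * (R * T) * R')) := by
            gcongr
        _ = exp ((T : ℝ) * log (N * l + 1) + (C + G + log (2 * R' * L) - lam) +
            (((R : ℝ) * T) ^ 2 + 2 * (R * T)) * log (2 * (R * T) * R')) := by
            rw [exp_add, exp_add]
        _ ≤ exp (-3) := exp_le_exp.2 (by linarith)
    have t3 : E1 ≤ exp (-3) := hE1le.trans (exp_le_exp.2 (by linarith))
    have t4 : |ff a b b0 p μ 0 s| ≤ exp (-2) + exp (-3) := by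
      have e1 : ff a b b0 p μ 0 s = ∑ u : Ix N L,
          ((p u : ℝ) * ((∏ j, cc b b0 u j ^ μ j : ℤ) : ℝ)) * exp (s * th a b b0 u) := by
        unfold ff
        refine Finset.sum_congr rfl (fun u _ => ?_)
        rw [pow_zero, mul_one]
      rw [e1]
      exact key.trans (add_le_add t1 t2)
    have t5 := hclo μ s hμh hsR'
    have t6 : |((FF a a0 b b0 p μ s : ℤ) : ℝ)| < 1 := by
      have e1 : |((FF a a0 b b0 p μ s : ℤ) : ℝ)| ≤
          |ff a b b0 p μ 0 s| + |ff a b b0 p μ 0 s - ((FF a a0 b b0 p μ s : ℤ) : ℝ)| := by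
        have := abs_sub_abs_le_abs_sub ((FF a a0 b b0 p μ s : ℤ) : ℝ) (ff a b b0 p μ 0 s)
        rw [abs_sub_comm] at this
        linarith
      have e2 := exp_neg_two_le
      have e3 := exp_neg_three_le
      linarith
    have t7 : |FF a a0 b b0 p μ s| < 1 := by exact_mod_cast t6
    exact Int.abs_lt_one_iff.1 t7
  · intro s' t hs' hs'R ht
    have hs'R' : s' ≤ R' := hs'R.trans hRR'
    have e1 : ∀ ν : Fin N → ℕ, ∑ j, ν j ≤ h' + T → |ff a b b0 p ν 0 s'| ≤ E1 := by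
      intro ν hν
      have h1 := hclo ν s' (by omega) hs'R'
      rw [hZ ν hν s' hs' hs'R] at h1
      simpa using h1
    have e2 := hD N L B a a0 b b0 l hdat p (h' + T) s' E1 hE10 e1 t μ (by omega)
    have e3 : ((N : ℝ) * l) ^ t ≤ (N * l + 1) ^ T := by
      have : (0 : ℝ) ≤ N * l := by positivity
      calc ((N : ℝ) * l) ^ t ≤ (N * l + 1) ^ t := pow_le_pow_left₀ this (by linarith) _
        _ ≤ (N * l + 1) ^ T := pow_le_pow_right₀ hA1 ht.le
    calc |∑ u : Ix N L, (p u : ℝ) * ((∏ j, cc b b0 u j ^ μ j : ℤ) : ℝ) * th a b b0 u ^ t *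
          exp ((s' : ℝ) * th a b b0 u)| = |ff a b b0 p μ t s'| := rfl
      _ ≤ ((N : ℝ) * l) ^ t * E1 := e2
      _ ≤ η := by
          rw [hη]
          exact mul_le_mul_of_nonneg_right e3 hE10

end Pool.Agent.BKW.H98
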